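import Pool.Agent.H48.NE.R8

set_option autoImplicit false

namespace Pool.Agent.Results.MP_d5876b_lc.Approximation

open Pool.Agent.H48.NE

/-- For every real `0 < δ < 1/2`: `NEXPTIME = EXPSPACE` if and only if for every language `L` in
`EXPSPACE` there is a language `A` in `NEXPTIME` which agrees with `L` on at least
`(1/2 + 2^(-δ n)) 2^n` strings of length `n`, for all large `n`. -/
theorem result (δ : ℝ) (h0 : 0 < δ) (h1 : δ < 1 / 2) :
    NEXPTIME = EXPSPACE ↔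
      ∀ L ∈ EXPSPACE, ∃ A ∈ NEXPTIME, ∃ n₀ : ℕ, ∀ n ≥ n₀,
        (1 / 2 + (2 : ℝ) ^ (-(δ * n))) * 2 ^ n ≤
          {x | x.length = n ∧ (x ∈ A ↔ x ∈ L)}.ncard :=
  ⟨appR_of_eq h0, fun h => Set.Subset.antisymm NEXPTIME_subset_EXPSPACE (subset_of_appR h0 h1 h)⟩

end Pool.Agent.Results.MP_d5876b_lc.Approximation
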