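import Pool.Agent.H28.NE.CTop

set_option autoImplicit false

namespace Pool.Agent.Results.MP_d5876b_lc.CertifiedTables

open Pool.Agent.H48.NE Pool.Agent.H28.NE

/-- For every real `0 < ε ≤ 1/2` the following are equivalent.
(a) `NEXPTIME = EXPSPACE`.
(b) For every language `L` in `EXPSPACE` there is a nondeterministic machine with running time
`2^O(n)` which, for all large `n`, has an accepting path on the input `1^n`, and which on every
accepting path prints a (partial) table that is good for `L` at length `n`:
`right > wrong` and `(right - wrong)^2 ≥ 2^((1/2+ε)n) (right + wrong)`.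
(c) Every unary language of `EXPSPACE` is in `NEXPTIME`, and for every language `L` in `EXPSPACE`
there is a nondeterministic machine with running time `2^O(n)` which, for all large `n` and some
advice string `h` of length `O(n)`, has an accepting path on `h`, and which on every accepting path
prints a list of tables at least one of which is good for `L` at length `n`. -/
theorem result (ε : ℝ) (h0 : 0 < ε) (h1 : ε ≤ 1 / 2) :
    List.TFAE [
      NEXPTIME = EXPSPACE,
      ∀ L ∈ EXPSPACE, ∃ N : NMach, ∃ n₀ : ℕ, ∀ n ≥ n₀,
        (∃ w, N.Acc (List.replicate n true) w) ∧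
          ∀ w, N.Acc (List.replicate n true) w → Good ε L n w 0,
      (∀ L ∈ EXPSPACE, (∀ x ∈ L, ∀ b ∈ x, b = true) → L ∈ NEXPTIME) ∧
        ∀ L ∈ EXPSPACE, ∃ N : NMach, ∃ c n₀ : ℕ, ∀ n ≥ n₀,
          ∃ h : List Bool, h.length ≤ c * (n + 1) ∧ (∃ w, N.Acc h w) ∧
            ∀ w, N.Acc h w → ∃ j, Good ε L n w j] := by
  tfae_have 1 → 2 := fun h => certB_of_eq h1 h
  tfae_have 2 → 3 := fun h => ⟨unary_of_certB (ε := ε) h, certC_of_certB (ε := ε) h⟩
  tfae_have 3 → 1 := fun h => eq_of_certC h0 h.1 h.2
  tfae_finish

end Pool.Agent.Results.MP_d5876b_lc.CertifiedTables
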