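import Pool.Agent.H48.NE.R11main

set_option autoImplicit false

namespace Pool.Agent.Results.MP_d5876b_lc.Errorless

open Pool.Agent.H48.NE

/-- For every real `0 < κ ≤ 1`: `NEXPTIME = EXPSPACE` if and only if for every language `L` in
`EXPSPACE` there are languages `A ⊆ L` and `B ⊆ Lᶜ` in `NEXPTIME` such that, for all large `n`,
at least `2^(κ n)` of the strings of length `n` belong to `A ∪ B`. -/
theorem result (κ : ℝ) (h0 : 0 < κ) (h1 : κ ≤ 1) :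
    NEXPTIME = EXPSPACE ↔
      ∀ L ∈ EXPSPACE, ∃ A ∈ NEXPTIME, ∃ B ∈ NEXPTIME, A ⊆ L ∧ B ⊆ Lᶜ ∧
        ∃ n₀ : ℕ, ∀ n ≥ n₀,
          (2 : ℝ) ^ (κ * n) ≤ {x : List Bool | (x ∈ A ∨ x ∈ B) ∧ x.length = n}.ncard :=
  ⟨ansR_of_eq h1, fun h => Set.Subset.antisymm NEXPTIME_subset_EXPSPACE (subset_of_ansR h0 h)⟩

end Pool.Agent.Results.MP_d5876b_lc.Errorless
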