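import Pool.Agent.H64.NE.TFinal

set_option autoImplicit false

namespace Pool.Agent.Results.MP_d5876b_lc.StatisticalTests

open Pool.Agent.H48.NE Pool.Agent.H64.NE

/-- Let `0 < κ < 1`, `b, c ≥ 1` and `m(n) = ⌊a n / c⌋ + b`. Then `NEXPTIME = EXPSPACE` if and only
if every unary language in `EXPSPACE` is in `NEXPTIME` and every function `f` with
`|f(x)| = m(|x|)` whose graph is in `EXPSPACE` fails a statistical test in `NEXPTIME` with `e n`
bits of advice: for all large `n` there is a string `α` of length `e n` such that the number of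
strings `x` of length `n` with `α x f(x) ∈ V` is significantly larger or smaller than for a
random function. -/
theorem result (κ : ℝ) (h0 : 0 < κ) (h1 : κ < 1) (a b c e : ℕ) (hb : 1 ≤ b) (hc : 1 ≤ c) :
    NEXPTIME = EXPSPACE ↔
      (∀ L ∈ EXPSPACE, (∀ x ∈ L, true ∉ x) → L ∈ NEXPTIME) ∧
      ∀ f : List Bool → List Bool, (∀ x, (f x).length = a * x.length / c + b) →
        {w | ∃ x, w = x ++ f x} ∈ EXPSPACE →
        ∃ V ∈ NEXPTIME, ∃ n₀ : ℕ, ∀ n ≥ n₀, ∃ α : List Bool, α.length = e * n ∧
          Significant κ V f α n (a * n / c + b) :=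
  main h0 h1 hb hc

end Pool.Agent.Results.MP_d5876b_lc.StatisticalTests
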